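import Mathlib
import Pool.Agent.TH286.GM.Gen
import Pool.Agent.W744.NG.All

set_option autoImplicit false
set_option linter.unusedSectionVars false

/-!
# MP_7561b1_an, Q2 (positive answer)

The generic extension of a multiply mixing automorphism is multiply mixing.
-/

open MeasureTheory Set Filter Topology
open scoped ENNReal symmDiff

namespace Pool.Agent.Results.MP_7561b1_an.MultipleMixingLifts

/-- Invertible bimeasurable `m`-preserving maps of `Z` onto itself (representatives of the elements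
of `Aut(Z, m)`). -/
def PreAut {Z : Type*} [MeasurableSpace Z] (m : Measure Z) : Type _ :=
  {S : Z ≃ᵐ Z // MeasurePreserving S m m}

/-- `S` is multiply mixing (mixing of all orders): for every `k ≥ 2` and measurable `A 0, ..., A k` the
measure of `A 0 ∩ S^{-n 1} (A 1) ∩ ... ∩ S^{-n k} (A k)` (`n 0 = 0`) tends to the product of the measures
as `n 1` and all the gaps `n (i+1) - n i` tend to infinity. -/
def MultiplyMixing {Z : Type*} [MeasurableSpace Z] (m : Measure Z) (S : Z → Z) : Prop :=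
  ∀ k : ℕ, 2 ≤ k → ∀ A : Fin (k + 1) → Set Z, (∀ i, MeasurableSet (A i)) → ∀ ε : ℝ, 0 < ε →
    ∃ N : ℕ, ∀ n : Fin (k + 1) → ℕ, n 0 = 0 → (∀ i : Fin k, n i.castSucc + N ≤ n i.succ) →
      |m.real (⋂ i, S^[n i] ⁻¹' A i) - ∏ i, m.real (A i)| < ε

/-- Measurable cocycles `α : X → Aut(Y, ν)` (representatives): jointly measurable families of
automorphisms of `(Y, ν)`. -/
def PreCocycle (X : Type*) {Y : Type*} [MeasurableSpace X] [MeasurableSpace Y] (ν : Measure Y) : Type _ :=
  {α : X → PreAut ν // Measurable (fun z : X × Y => (α z.1).1 z.2)}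

section
variable {X Y : Type*} [MeasurableSpace X] [MeasurableSpace Y]

/-- Equality of cocycles modulo null sets. -/
def cocEq (μ : Measure X) (ν : Measure Y) : Setoid (PreCocycle X ν) where
  r := fun α β => ∀ᵐ x ∂μ, ∀ᵐ y ∂ν, (α.1 x).1 y = (β.1 x).1 y
  iseqv :=
    { refl := fun α => Eventually.of_forall fun x => Eventually.of_forall fun y => rfl
      symm := fun {α β} h => h.mono fun x hx => hx.mono fun y hy => hy.symm
      trans := fun {α β γ} h h' => by
        filter_upwards [h, h'] with x h1 h2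
        filter_upwards [h1, h2] with y h3 h4
        exact h3.trans h4 }

/-- The space of cocycles modulo null sets. -/
def Cocycle (μ : Measure X) (ν : Measure Y) : Type _ := Quotient (cocEq μ ν)

/-- The class of a representative. -/
def cls (μ : Measure X) {ν : Measure Y} (α : PreCocycle X ν) : Cocycle μ ν := Quotient.mk (cocEq μ ν) α

/-- The classes of the cocycles `β` with `μ {x : ν (α(x)B Δ β(x)B) ≥ ε} < ε`. -/
def nbd (μ : Measure X) {ν : Measure Y} (α : PreCocycle X ν) (B : Set Y) (ε : ℝ) : Set (Cocycle μ ν) :=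
  {q | ∃ β : PreCocycle X ν, cls μ β = q ∧
    μ.real {x | ε ≤ ν.real (((α.1 x).1 '' B) ∆ ((β.1 x).1 '' B))} < ε}

/-- Convergence in measure of cocycles, `Aut(Y, ν)` carrying the weak topology. -/
instance inMeasure (μ : Measure X) (ν : Measure Y) : TopologicalSpace (Cocycle μ ν) :=
  TopologicalSpace.generateFrom
    {U | ∃ (α : PreCocycle X ν) (B : Set Y) (ε : ℝ), MeasurableSet B ∧ 0 < ε ∧ U = nbd μ α B ε}

/-- The extension `T_α(x, y) = (Tx, α(x)y)`. -/
def ext {μ : Measure X} {ν : Measure Y} (T : PreAut μ) (α : PreCocycle X ν) (z : X × Y) : X × Y :=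
  (T.1 z.1, (α.1 z.1).1 z.2)

/-- The set of cocycles `α` for which `T_α` is multiply mixing. -/
def MixingCocycles {μ : Measure X} (T : PreAut μ) (ν : Measure Y) : Set (Cocycle μ ν) :=
  {q | ∃ α : PreCocycle X ν, cls μ α = q ∧ MultiplyMixing (μ.prod ν) (ext T α)}

end

/-! ### proof -/

open Pool.Agent.W744.NG Pool.Agent.W744.NG.Final Pool.Agent.TH286.GM

section
variable {X Y : Type} [MeasurableSpace X] [StandardBorelSpace X] [MeasurableSpace Y] [StandardBorelSpace Y]
  {μ : Measure X} {ν : Measure Y} [IsProbabilityMeasure μ] [IsProbabilityMeasure ν]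

theorem mm_iff {Z : Type} [MeasurableSpace Z] {m : Measure Z} [IsProbabilityMeasure m] {S : Z → Z} :
    MultiplyMixing m S ↔ ∀ k, MMk k m S := by
  constructor
  · intro h k
    have h2 : ∀ k, 2 ≤ k → MMk k m S := by
      intro k hk A hA ε hε
      obtain ⟨N, hN⟩ := h k hk A hA ε hε
      exact ⟨N, fun n hn => hN n hn.1 hn.2⟩
    rcases Nat.lt_or_ge k 2 with hk | hk
    · rcases Nat.lt_or_ge k 1 with hk1 | hk1
      · have : k = 0 := by omega
        subst this
        intro A hA ε hε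
        refine ⟨0, fun n hn => ?_⟩
        have h3 : (⋂ i : Fin 1, S^[n i] ⁻¹' A i) = A 0 := by
          ext x
          simp [hn.1]
        have h4 : ∏ i : Fin 1, m.real (A i) = m.real (A 0) := by simp
        show |m.real (⋂ i : Fin 1, S^[n i] ⁻¹' A i) - ∏ i : Fin 1, m.real (A i)| < ε
        rw [h3, h4, sub_self, abs_zero]
        exact hε
      · have : k = 1 := by omega
        subst this
        intro A hA ε hε
        obtain ⟨N, hN⟩ := h2 2 le_rfl ![A 0, A 1, univ] (by
          intro i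
          fin_cases i
          · exact hA 0
          · exact hA 1
          · exact MeasurableSet.univ) ε hε
        refine ⟨N, fun n hn => ?_⟩
        have h3 := hN ![n 0, n 1, n 1 + N] ⟨hn.1, fun i => by
          fin_cases i
          · exact hn.2 0
          · exact le_rfl⟩
        have h4 : (⋂ i : Fin 3, S^[(![n 0, n 1, n 1 + N] : Fin 3 → ℕ) i] ⁻¹' (![A 0, A 1, univ] : Fin 3 → Set Z) i) =
            ⋂ i : Fin 2, S^[n i] ⁻¹' A i := by
          ext x
          simp [Fin.forall_fin_succ]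
        have h5 : ∏ i : Fin 3, m.real ((![A 0, A 1, univ] : Fin 3 → Set Z) i) = ∏ i : Fin 2, m.real (A i) := by
          rw [Fin.prod_univ_three, Fin.prod_univ_two]
          simp
        rw [h4, h5] at h3
        exact h3
    · exact h2 k hk
  · intro h k _ A hA ε hε
    obtain ⟨N, hN⟩ := h k A hA ε hε
    exact ⟨N, fun n hn hn2 => hN n ⟨hn, hn2⟩⟩

theorem real_img (S S' : AU ν) (h : ∀ᵐ y ∂ν, S.1 y = S'.1 y) (A B : Set Y) :
    ν.real (A ∆ (S.1 '' B)) = ν.real (A ∆ (S'.1 '' B)) := by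
  apply measureReal_congr
  exact (ae_eq_refl A).symmDiff (Pool.H359R3.MX.img_ae ν S.1 S'.1 S.2 h B)

theorem mem_nbd (α β : PreCocycle X ν) (B : Set Y) (ε : ℝ) :
    cls μ β ∈ nbd μ α B ε ↔ (β : Coc X ν) ∈ NB μ (α : Coc X ν) B ε := by
  constructor
  · rintro ⟨β', h1, h2⟩
    have h3 : ∀ᵐ x ∂μ, ∀ᵐ y ∂ν, (β'.1 x).1 y = (β.1 x).1 y := Quotient.exact h1
    show μ.real {x | ε ≤ ν.real (((α.1 x).1 '' B) ∆ ((β.1 x).1 '' B))} < ε
    refine lt_of_le_of_lt (le_of_eq ?_) h2
    apply measureReal_congr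
    filter_upwards [h3] with x hx
    apply propext
    have h4 := real_img (β'.1 x) (β.1 x) hx ((α.1 x).1 '' B) B
    show ε ≤ ν.real (((α.1 x).1 '' B) ∆ ((β.1 x).1 '' B)) ↔ ε ≤ ν.real (((α.1 x).1 '' B) ∆ ((β'.1 x).1 '' B))
    rw [← h4]
  · intro h
    exact ⟨β, rfl, h⟩

/-- the class map on the cocycles of the library -/
def clsC (μ : Measure X) (ν : Measure Y) (Φ : Coc X ν) : Cocycle μ ν := cls μ Φ

theorem cls_surj : Function.Surjective (clsC μ ν) := Quotient.mk_surjective

theorem ind : @IsInducing (Coc X ν) (Cocycle μ ν) (tC μ ν) _ (clsC μ ν) := by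
  refine @IsInducing.mk _ _ (tC μ ν) _ _ ?_
  show tC μ ν = TopologicalSpace.induced (clsC μ ν) (TopologicalSpace.generateFrom _)
  rw [induced_generateFrom_eq]
  refine congrArg TopologicalSpace.generateFrom ?_
  ext U
  constructor
  · rintro ⟨α, B, ε, hB, hε, rfl⟩
    refine ⟨nbd μ α B ε, ⟨α, B, ε, hB, hε, rfl⟩, ?_⟩
    ext β
    exact mem_nbd α β B ε
  · rintro ⟨_, ⟨α, B, ε, hB, hε, rfl⟩, rfl⟩
    refine ⟨α, B, ε, hB, hε, ?_⟩
    ext β
    exact mem_nbd α β B ε

theorem pre_mix (T : AU μ) : clsC μ ν ⁻¹' (MixingCocycles (T : PreAut μ) ν) =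
    {Φ : Coc X ν | ∀ k, MMk k (μ.prod ν) (sk T.1 Φ)} := by
  ext Φ
  constructor
  · rintro ⟨α, h1, h2⟩ k
    have h3 : ∀ᵐ x ∂μ, ∀ᵐ y ∂ν, (α.1 x).1 y = (Φ.1 x).1 y := Quotient.exact h1
    have h4 : ∀ᵐ z ∂(μ.prod ν), sk T.1 (α : Coc X ν) z = sk T.1 Φ z := by
      have h5 : MeasurableSet {z : X × Y | (α.1 z.1).1 z.2 = (Φ.1 z.1).1 z.2} :=
        measurableSet_eq_fun α.2 Φ.2
      have h6 : ∀ᵐ z ∂(μ.prod ν), (α.1 z.1).1 z.2 = (Φ.1 z.1).1 z.2 := by
        rw [Measure.ae_prod_iff_ae_ae h5]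
        exact h3
      filter_upwards [h6] with z hz
      unfold sk
      exact Prod.ext rfl hz
    exact mmk_congr (sk_mp T (α : Coc X ν)) h4 k (mm_iff.1 h2 k)
  · intro h
    exact ⟨Φ, rfl, mm_iff.2 h⟩

/-- residual sets of the space of cocycles contain dense `G_δ` sets -/
theorem gdelta [NullSingletonClass μ] [NullSingletonClass ν] (s : Set (Cocycle μ ν))
    (h : s ∈ residual (Cocycle μ ν)) : ∃ G : Set (Cocycle μ ν), IsGδ G ∧ Dense G ∧ G ⊆ s := by
  obtain ⟨S, hS, hSd, hSc, hSs⟩ := mem_residual_iff.1 h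
  refine ⟨⋂₀ S, ⟨S, hS, hSc, rfl⟩, ?_, hSs⟩
  let _ : TopologicalSpace (Coc X ν) := tC μ ν
  have hB : BaireSpace (Coc X ν) := All.baire X Y μ ν
  have hind : IsInducing (clsC μ ν) := ind
  have hopen : IsOpenMap (clsC μ ν) := by
    intro U hU
    obtain ⟨V, hV, rfl⟩ := hind.isOpen_iff.1 hU
    rw [image_preimage_eq V cls_surj]
    exact hV
  have h1 : Dense (⋂ U ∈ S, clsC μ ν ⁻¹' U) := by
    refine dense_biInter_of_isOpen ?_ hSc ?_
    · intro U hU
      exact (hS U hU).preimage hind.continuous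
    · intro U hU
      exact (hSd U hU).preimage hopen
  have h2 : (⋂ U ∈ S, clsC μ ν ⁻¹' U) = clsC μ ν ⁻¹' (⋂₀ S) := by
    ext x
    simp
  rw [h2] at h1
  have h3 := cls_surj.denseRange.dense_image hind.continuous h1
  rwa [image_preimage_eq _ cls_surj] at h3

end

/-- **Theorem.** Let `(X, μ)` and `(Y, ν)` be nonatomic standard probability spaces and let `T` be a
multiply mixing automorphism of `(X, μ)`. Then the set of cocycles `α` for which the extension `T_α` is
multiply mixing contains a dense `G_δ` subset of the space of cocycles (modulo null sets, convergence in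
measure). -/
theorem result {X : Type} [MeasurableSpace X] [StandardBorelSpace X] (μ : Measure X)
    [IsProbabilityMeasure μ] [NullSingletonClass μ] (T : PreAut μ) (hT : MultiplyMixing μ T.1)
    {Y : Type} [MeasurableSpace Y] [StandardBorelSpace Y] (ν : Measure Y) [IsProbabilityMeasure ν]
    [NullSingletonClass ν] :
    ∃ G : Set (Cocycle μ ν), IsGδ G ∧ Dense G ∧ G ⊆ MixingCocycles T ν := by
  apply gdelta
  let _ : TopologicalSpace (Coc X ν) := tC μ ν
  have h : clsC μ ν ⁻¹' (MixingCocycles T ν) = {Φ : Coc X ν | ∀ k, MMk k (μ.prod ν) (sk T.1 Φ)} := pre_mix T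
  rw [res_iff (clsC μ ν) ind cls_surj, h]
  exact generic T (mm_iff.1 hT)

end Pool.Agent.Results.MP_7561b1_an.MultipleMixingLifts
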